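import Pool.Agent.H7.Max5915

/-!
There are primes `p < q < r` and `b ≥ 2` such that `p` does not divide `B(p q r^b)`.
The witness is `5 * 7 * 13 ^ 2 = 5915`, for which `B` takes the value `12822`.
-/

open Polynomial

namespace Pool.Agent.Results.MP_68ef1b_nt.Disproof

/-- The height of an integer polynomial: the largest absolute value of its coefficients. -/
def height (f : ℤ[X]) : ℕ := f.support.sup fun i => (f.coeff i).natAbs

/-- `M` is the maximum `B(n)` of the heights of the divisors of `X ^ n - 1` in `ℤ[X]`. -/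
def IsMaxHeight (n M : ℕ) : Prop :=
  IsGreatest {h : ℕ | ∃ f : ℤ[X], f ∣ X ^ n - 1 ∧ height f = h} M

theorem height_le {f : ℤ[X]} {M : ℕ} (h : ∀ i, |f.coeff i| ≤ (M : ℤ)) : height f ≤ M := by
  refine Finset.sup_le fun i _ => ?_
  have := h i
  rw [Int.abs_eq_natAbs] at this
  exact_mod_cast this

theorem le_height (f : ℤ[X]) (i : ℕ) : (f.coeff i).natAbs ≤ height f := by
  by_cases hi : i ∈ f.support
  · exact Finset.le_sup (f := fun i => (f.coeff i).natAbs) hi
  · rw [notMem_support_iff.1 hi]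
    simp

theorem isMaxHeight_5915 : IsMaxHeight 5915 12822 := by
  constructor
  · refine ⟨H7.Kron.ext, H7.Kron.ext_dvd, le_antisymm ?_ ?_⟩
    · exact height_le fun i => by exact_mod_cast H7.Kron.upper _ H7.Kron.ext_dvd i
    · have := le_height H7.Kron.ext 597
      rw [H7.Kron.coeff_ext] at this
      exact this
  · rintro _ ⟨f, hf, rfl⟩
    exact height_le fun i => by exact_mod_cast H7.Kron.upper _ hf i

theorem result : ∃ p q r b M : ℕ, p.Prime ∧ q.Prime ∧ r.Prime ∧ p < q ∧ q < r ∧ 2 ≤ b ∧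
    IsMaxHeight (p * q * r ^ b) M ∧ ¬ p ∣ M :=
  ⟨5, 7, 13, 2, 12822, by norm_num, by norm_num, by norm_num, by norm_num, by norm_num, le_rfl,
    isMaxHeight_5915, by norm_num⟩

end Pool.Agent.Results.MP_68ef1b_nt.Disproof
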